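import Pool.Agent.H109Z.Frog.Spec

set_option autoImplicit false

/-! Uniform estimates on the environment (`EnvStmt`). -/

namespace Pool.Agent.H109Z.FrogGW

open Function Finset Filter
open scoped ENNReal NNReal Topology

/-- number of alive indices in `S` -/
noncomputable def envN (x : ℕ → ℝ × ℝ) (S : Finset ℕ) : ℕ :=
  (S.filter fun j => 0 < (x j).1).card

/-- the weight used for the contraction -/
noncomputable def envW (n : ℕ) : ℝ≥0∞ :=
  if n = 0 then 1 else ENNReal.ofReal (1 / (2 * ((n : ℝ) + 1)))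

lemma envN_update (x : ℕ → ℝ × ℝ) (k i : ℕ) (a : ℝ × ℝ) :
    envN (update x i a) ((range k).erase i) = envN x ((range k).erase i) := by
  unfold envN
  congr 1
  refine Finset.filter_congr fun j hj => ?_
  rw [update_of_ne (Finset.ne_of_mem_erase hj)]

lemma envN_erase (x : ℕ → ℝ × ℝ) {k i : ℕ} (hi : i < k) (ha : 0 < (x i).1) :
    envN x ((range k).erase i) + 1 = envN x (range k) := by
  unfold envN
  rw [Finset.filter_erase]
  exact Finset.card_erase_add_one (by simp [hi, ha])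

lemma env_Cs_pos {x : ℕ → ℝ × ℝ} {k i : ℕ} (hx : ∀ j < k, 0 ≤ (x j).1) (hi : i < k)
    (ha : 0 < (x i).1) : 0 < Cs (fun j => (x j).1) k :=
  ha.trans_le (Finset.single_le_sum (f := fun j => (x j).1)
    (fun j hj => hx j (mem_range.1 hj)) (mem_range.2 hi))

lemma env_P1 {x : ℕ → ℝ × ℝ} {k : ℕ} (hx : ∀ j < k, 0 ≤ (x j).1) :
    (∑ i ∈ range k, envW (envN x ((range k).erase i)) * (if 0 < (x i).1 then 1 else 0)) +
      2⁻¹ * (if 2 ≤ envN x (range k) then 1 else 0) ≤
      if 0 < Cs (fun j => (x j).1) k / (1 + Cs (fun j => (x j).1) k) then 1 else 0 := by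
  have h1 : (∑ i ∈ range k, envW (envN x ((range k).erase i)) * (if 0 < (x i).1 then 1 else 0)) =
      (envN x (range k) : ℝ≥0∞) * envW (envN x (range k) - 1) := by
    have : ∀ i ∈ range k, envW (envN x ((range k).erase i)) * (if 0 < (x i).1 then 1 else 0) =
        if 0 < (x i).1 then envW (envN x (range k) - 1) else 0 := by
      intro i hi
      split_ifs with h
      · rw [mul_one, ← envN_erase x (mem_range.1 hi) h, Nat.add_sub_cancel]
      · rw [mul_zero]
    rw [Finset.sum_congr rfl this, ← Finset.sum_filter, Finset.sum_const, nsmul_eq_mul]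
    rfl
  rw [h1]
  rcases Nat.eq_zero_or_pos (envN x (range k)) with h0 | h0
  · simp [h0]
  · obtain ⟨i, hi⟩ := Finset.card_pos.1 h0
    rw [mem_filter, mem_range] at hi
    have hC := env_Cs_pos hx hi.1 hi.2
    rw [if_pos (by positivity : 0 < Cs (fun j => (x j).1) k / (1 + Cs (fun j => (x j).1) k))]
    obtain ⟨n, hn⟩ : ∃ n, envN x (range k) = n + 1 := ⟨envN x (range k) - 1, by omega⟩
    rw [hn, Nat.add_sub_cancel]
    rcases Nat.eq_zero_or_pos n with rfl | hn0
    · simp [envW]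
    · rw [if_pos (by omega), envW, if_neg hn0.ne', mul_one, ← ENNReal.ofReal_natCast,
        ← ENNReal.ofReal_mul (by positivity)]
      have : ((n + 1 : ℕ) : ℝ) * (1 / (2 * ((n : ℝ) + 1))) = 2⁻¹ := by
        push_cast
        field_simp
      rw [this, ENNReal.ofReal_inv_of_pos (by norm_num), ENNReal.ofReal_ofNat,
        ENNReal.inv_two_add_inv_two]

lemma env_P2 (μ : PMF ℕ) (ν : PMF (ℝ × ℝ)) {k0 : ℕ} (hk : 2 ≤ k0) :
    μ k0 * (EL ν (fun x => if 0 < x.1 then 1 else 0) * EL ν (fun x => if 0 < x.1 then 1 else 0)) ≤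
      EZ μ ν fun k x => if 2 ≤ envN x (range k) then 1 else 0 := by
  unfold EZ
  refine le_trans ?_ (ENNReal.le_tsum k0)
  refine mul_le_mul' le_rfl ?_
  have h := EL_prod' (fun _ : ℕ => ν) (fun _ => ((0 : ℝ), (0 : ℝ))) (List.range k0) {0, 1}
    (by intro i hi; simp only [mem_insert, mem_singleton] at hi; rw [List.mem_range]; omega)
    (fun _ x => if 0 < x.1 then 1 else 0)
  rw [Finset.prod_pair (by norm_num)] at h
  rw [← h]
  refine EL_mono _ fun x => ?_
  rw [Finset.prod_pair (by norm_num)]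
  by_cases h0 : 0 < (x 0).1
  · by_cases h1 : 0 < (x 1).1
    · have : 2 ≤ envN x (range k0) := by
        have hs : ({0, 1} : Finset ℕ) ⊆ (range k0).filter fun j => 0 < (x j).1 := by
          intro i hi
          simp only [mem_insert, mem_singleton] at hi
          rcases hi with rfl | rfl
          · simp [h0]; omega
          · simp [h1]; omega
        have := Finset.card_le_card hs
        rwa [Finset.card_pair (by norm_num)] at this
      simp [h0, h1, this]
    · simp [h1]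
  · simp [h0]

/-- the contraction factor -/
lemma env_W {μ : PMF ℕ} {σ0 : ℝ≥0∞} (hσ : σ0 ≠ 0) (hk : ∃ k, 2 ≤ k ∧ μ k ≠ 0) :
    ∃ ρ : ℝ≥0∞, ρ < 1 ∧ ∀ ν, Env μ σ0 ν → ∀ h,
      EZ μ (ν h) (fun k x => ∑ i ∈ range k, envW (envN x ((range k).erase i))) ≤ ρ := by
  obtain ⟨k0, hk, hp⟩ := hk
  refine ⟨1 - 2⁻¹ * (μ k0 * σ0), ?_, fun ν hν h => ?_⟩
  · exact ENNReal.sub_lt_self ENNReal.one_ne_top one_ne_zero (by simp [hp, hσ])
  set s := EL (ν h) (fun x => if 0 < x.1 then 1 else 0) with hs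
  have hs0 : s ≠ 0 := fun h0 => hσ (le_antisymm (h0 ▸ hν.low h) bot_le)
  have hs1 : s ≤ 1 := EL_le_const _ fun a _ => by split_ifs <;> simp
  have hst : s ≠ ⊤ := ne_top_of_le_ne_top ENNReal.one_ne_top hs1
  have h1 := EZ_child μ (ν h) (fun k i x => envW (envN x ((range k).erase i)))
    (fun k i x a => by rw [envN_update]) (fun x => if 0 < x.1 then 1 else 0)
  have h2 := EZ_mono μ (ν h) (fun k x hx => env_P1 (x := x) (k := k)
    fun j hj => (hν.box h _ (hx j hj)).1)
  rw [EZ_add, EZ_const_mul, h1, ← hν.succ h (fun g => if 0 < g then 1 else 0)] at h2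
  have h3 := env_P2 μ (ν h) hk
  have h4 : (EZ μ (ν h) (fun k x => ∑ i ∈ range k, envW (envN x ((range k).erase i))) +
      2⁻¹ * (μ k0 * σ0)) * s ≤ 1 * s := by
    rw [one_mul, add_mul]
    refine le_trans (add_le_add le_rfl ?_) (h2.trans (hν.anti h))
    rw [mul_assoc]
    refine mul_le_mul' le_rfl (le_trans ?_ h3)
    rw [mul_assoc]
    exact mul_le_mul' le_rfl (mul_le_mul' (hν.low h) le_rfl)
  rw [ENNReal.mul_le_mul_iff_left hs0 hst] at h4
  refine ENNReal.le_sub_of_add_le_right ?_ h4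
  exact ne_top_of_le_ne_top ENNReal.one_ne_top (le_add_self.trans h4)

lemma env_split (r : ℕ) {η u : ℝ} (hη : 0 < η) :
    ENNReal.ofReal (1 + u) ^ r ≤
      ENNReal.ofReal (1 + 1 / η) ^ r + ENNReal.ofReal (1 + η) ^ r * ENNReal.ofReal u ^ r := by
  by_cases h : u ≤ 1 / η
  · exact le_add_right (pow_le_pow_left' (ENNReal.ofReal_le_ofReal (by linarith)) r)
  · refine le_add_left ?_
    rw [← mul_pow, ← ENNReal.ofReal_mul (by linarith)]
    refine pow_le_pow_left' (ENNReal.ofReal_le_ofReal ?_) r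
    have : 1 < u * η := (div_lt_iff₀ hη).1 (not_le.1 h)
    nlinarith

lemma env_P3 (r : ℕ) {x : ℕ → ℝ × ℝ} {k : ℕ} (hx : ∀ j < k, 0 ≤ (x j).1)
    (hC : 0 < Cs (fun j => (x j).1) k) :
    ENNReal.ofReal (1 / Cs (fun j => (x j).1) k) ^ (r + 2) ≤
      ∑ i ∈ range k, envW (envN x ((range k).erase i)) *
        (if 0 < (x i).1 then ENNReal.ofReal (1 / (x i).1) ^ (r + 2) else 0) := by
  have hne : ((range k).filter fun j => 0 < (x j).1).Nonempty := by
    by_contra hne
    rw [Finset.not_nonempty_iff_eq_empty, Finset.filter_eq_empty_iff] at hne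
    have : Cs (fun j => (x j).1) k ≤ 0 :=
      Finset.sum_nonpos fun j hj => not_lt.1 (hne hj)
    linarith
  obtain ⟨i, hi, hmin⟩ := Finset.exists_min_image _ (fun j => (x j).1) hne
  rw [mem_filter] at hi
  have hN := envN_erase x (mem_range.1 hi.1) hi.2
  refine le_trans ?_ (Finset.single_le_sum (f := fun i => envW (envN x ((range k).erase i)) *
    (if 0 < (x i).1 then ENNReal.ofReal (1 / (x i).1) ^ (r + 2) else 0))
    (fun _ _ => bot_le) hi.1)
  simp only [if_pos hi.2]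
  set n := envN x ((range k).erase i) with hn
  have hge : ((n : ℝ) + 1) * (x i).1 ≤ Cs (fun j => (x j).1) k := by
    have h1 := Finset.card_nsmul_le_sum ((range k).filter fun j => 0 < (x j).1)
      (fun j => (x j).1) (x i).1 hmin
    have h2 : ∑ j ∈ (range k).filter (fun j => 0 < (x j).1), (x j).1 ≤
        Cs (fun j => (x j).1) k :=
      Finset.sum_le_sum_of_subset_of_nonneg (Finset.filter_subset _ _)
        fun j hj _ => hx j (mem_range.1 hj)
    change envN x (range k) • (x i).1 ≤ _ at h1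
    rw [← hN, nsmul_eq_mul] at h1
    push_cast at h1
    linarith
  have hg := hi.2
  have h3 : ENNReal.ofReal (1 / Cs (fun j => (x j).1) k) ≤
      ENNReal.ofReal (1 / ((n : ℝ) + 1)) * ENNReal.ofReal (1 / (x i).1) := by
    rw [← ENNReal.ofReal_mul (by positivity)]
    refine ENNReal.ofReal_le_ofReal ?_
    rw [one_div_mul_one_div]
    exact one_div_le_one_div_of_le (by positivity) hge
  refine (pow_le_pow_left' h3 _).trans ?_
  rw [mul_pow]
  refine mul_le_mul' ?_ le_rfl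
  have hle : ENNReal.ofReal (1 / ((n : ℝ) + 1)) ≤ 1 := by
    rw [ENNReal.ofReal_le_one, div_le_one (by positivity)]
    have : (0 : ℝ) ≤ n := by positivity
    linarith
  unfold envW
  split_ifs with h0
  · exact pow_le_one' hle _
  · refine (pow_le_pow_right_of_le_one' hle (Nat.le_add_left 2 r)).trans ?_
    rw [← ENNReal.ofReal_pow (by positivity)]
    refine ENNReal.ofReal_le_ofReal ?_
    have : (1 : ℝ) ≤ n := by exact_mod_cast Nat.pos_of_ne_zero h0
    rw [div_pow, one_pow]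
    refine one_div_le_one_div_of_le (by positivity) ?_
    nlinarith

lemma env_eta (r : ℕ) {ρ : ℝ≥0∞} (hρ : ρ < 1) :
    ∃ η : ℝ, 0 < η ∧ ENNReal.ofReal (1 + η) ^ r * ρ < 1 := by
  have hc : Continuous fun η : ℝ => ENNReal.ofReal (1 + η) ^ r :=
    (ENNReal.continuous_pow r).comp (ENNReal.continuous_ofReal.comp (by fun_prop))
  have h1 : Tendsto (fun η : ℝ => ENNReal.ofReal (1 + η) ^ r * ρ) (𝓝 0)
      (𝓝 (ENNReal.ofReal (1 + 0) ^ r * ρ)) :=
    ENNReal.Tendsto.mul_const (hc.tendsto 0) (Or.inr hρ.ne_top)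
  have h2 : ∀ᶠ η : ℝ in 𝓝[>] 0, ENNReal.ofReal (1 + η) ^ r * ρ < 1 :=
    (h1.mono_left nhdsWithin_le_nhds).eventually (gt_mem_nhds (by simpa using hρ))
  obtain ⟨η, h3, h4⟩ := (h2.and self_mem_nhdsWithin).exists
  exact ⟨η, h4, h3⟩

lemma env_a {μ : PMF ℕ} {σ0 : ℝ≥0∞} (hσ : σ0 ≠ 0) (hk : ∃ k, 2 ≤ k ∧ μ k ≠ 0) (r : ℕ) :
    ∃ G : ℝ≥0∞, G ≠ ⊤ ∧ ∀ ν, Env μ σ0 ν → ∀ h,
      EL (ν h) (fun x => if 0 < x.1 then ENNReal.ofReal (1 / x.1) ^ r else 0) ≤ G := by
  obtain ⟨ρ, hρ, hW⟩ := env_W hσ hk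
  obtain ⟨η, hη, ha⟩ := env_eta (r + 2) hρ
  set a := ENNReal.ofReal (1 + η) ^ (r + 2) * ρ with ha'
  set c := ENNReal.ofReal (1 + 1 / η) ^ (r + 2) with hc
  have hct : c ≠ ⊤ := ENNReal.pow_ne_top ENNReal.ofReal_ne_top
  have h1a : 1 - a ≠ 0 := (tsub_pos_of_lt ha).ne'
  have h1t : 1 - a ≠ ⊤ := ne_top_of_le_ne_top ENNReal.one_ne_top tsub_le_self
  set G := (c + 1) * (1 - a)⁻¹ with hG
  have hGe : G = c + 1 + a * G := by
    calc G = ((1 - a) + a) * G := by rw [tsub_add_cancel_of_le ha.le, one_mul]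
      _ = (c + 1) * ((1 - a) * (1 - a)⁻¹) + a * G := by rw [add_mul, hG]; ring
      _ = c + 1 + a * G := by rw [ENNReal.mul_inv_cancel h1a h1t, mul_one]
  refine ⟨G, ENNReal.mul_ne_top (by simp [hct]) (ENNReal.inv_ne_top.2 h1a), fun ν hν h => ?_⟩
  have key : ∀ h, EL (ν h)
      (fun x => if 0 < x.1 then ENNReal.ofReal (1 / x.1) ^ (r + 2) else 0) ≤ G := by
    intro h
    induction h with
    | zero =>
      refine EL_le_const _ fun x hx => ?_
      rw [hν.zero x hx, hGe]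
      simp only [one_pos, if_true, div_one, ENNReal.ofReal_one, one_pow]
      exact le_add_right le_add_self
    | succ h ih =>
      rw [hν.succ h (fun g => if 0 < g then ENNReal.ofReal (1 / g) ^ (r + 2) else 0)]
      have h1 := EZ_child μ (ν h) (fun k i x => envW (envN x ((range k).erase i)))
        (fun k i x a => by rw [envN_update])
        (fun x => if 0 < x.1 then ENNReal.ofReal (1 / x.1) ^ (r + 2) else 0)
      calc _ ≤ EZ μ (ν h) (fun k x => c + ENNReal.ofReal (1 + η) ^ (r + 2) *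
            ∑ i ∈ range k, envW (envN x ((range k).erase i)) *
              (if 0 < (x i).1 then ENNReal.ofReal (1 / (x i).1) ^ (r + 2) else 0)) := by
            refine EZ_mono μ (ν h) fun k x hx => ?_
            have hx' : ∀ j < k, 0 ≤ (x j).1 := fun j hj => (hν.box h _ (hx j hj)).1
            have hC0 := Cs_nonneg (g := fun j => (x j).1) hx'
            split_ifs with h0
            · have hC : 0 < Cs (fun j => (x j).1) k := by
                rcases hC0.eq_or_lt with h' | h'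
                · rw [← h'] at h0; simp at h0
                · exact h'
              have e : 1 / (Cs (fun j => (x j).1) k / (1 + Cs (fun j => (x j).1) k)) =
                  1 + 1 / Cs (fun j => (x j).1) k := by
                field_simp
                ring
              rw [e]
              refine (env_split (r + 2) hη).trans ?_
              exact add_le_add le_rfl (mul_le_mul' le_rfl (env_P3 r hx' hC))
            · exact bot_le
        _ = c + ENNReal.ofReal (1 + η) ^ (r + 2) *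
            (EZ μ (ν h) (fun k x => ∑ i ∈ range k, envW (envN x ((range k).erase i))) *
              EL (ν h) fun x => if 0 < x.1 then ENNReal.ofReal (1 / x.1) ^ (r + 2) else 0) := by
            rw [EZ_add, EZ_const_mul, h1, EZ_fst μ (ν h) (fun _ => c), EL_const]
        _ ≤ c + ENNReal.ofReal (1 + η) ^ (r + 2) * (ρ * G) :=
            add_le_add le_rfl (mul_le_mul' le_rfl (mul_le_mul' (hW ν hν h) ih))
        _ ≤ G := by
            rw [← mul_assoc]
            conv_rhs => rw [hGe]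
            exact add_le_add le_self_add le_rfl
  refine le_trans (EL_mono_supp _ fun x hx => ?_) (key h)
  split_ifs with h0
  · refine pow_le_pow_right₀ ?_ (Nat.le_add_right r 2)
    rw [ENNReal.one_le_ofReal, le_div_iff₀ h0]
    linarith [(hν.box h x hx).2]
  · exact le_rfl

lemma env_small (ν : PMF (ℝ × ℝ)) {η : ℝ} (hη : 0 < η) :
    EL ν (fun x => if 0 < x.1 ∧ x.1 < η then 1 else 0) ≤ ENNReal.ofReal η ^ 2 *
      EL ν (fun x => if 0 < x.1 then ENNReal.ofReal (1 / x.1) ^ 2 else 0) := by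
  rw [← EL_const_mul]
  refine EL_mono _ fun x => ?_
  split_ifs with h1 h2
  · rw [← mul_pow, ← ENNReal.ofReal_mul hη.le]
    refine one_le_pow₀ ?_
    rw [ENNReal.one_le_ofReal, mul_one_div, le_div_iff₀ h2]
    linarith [h1.2]
  · exact absurd h1.1 h2
  · exact bot_le
  · exact bot_le

lemma env_choose {M ε : ℝ≥0∞} (hM : M ≠ ⊤) (hε : ε ≠ 0) :
    ∃ η : ℝ, 0 < η ∧ η ≤ 1 ∧ ENNReal.ofReal η ^ 2 * M ≤ ε := by
  obtain ⟨n, hn, h⟩ := ENNReal.exists_nnreal_pos_mul_lt hM hε
  have hn' : (0 : ℝ) < n := hn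
  refine ⟨min n 1, lt_min hn' one_pos, min_le_right _ _, le_trans (mul_le_mul' ?_ le_rfl) h.le⟩
  have h1 : ENNReal.ofReal (min (n : ℝ) 1) ≤ 1 := ENNReal.ofReal_le_one.2 (min_le_right _ _)
  have h2 : ENNReal.ofReal (min (n : ℝ) 1) ≤ n := by
    rw [← ENNReal.ofReal_coe_nnreal]
    exact ENNReal.ofReal_le_ofReal (min_le_left _ _)
  calc _ = ENNReal.ofReal (min (n : ℝ) 1) * ENNReal.ofReal (min (n : ℝ) 1) := sq _
    _ ≤ n * 1 := mul_le_mul' h2 h1
    _ = n := mul_one _

lemma env_b {μ : PMF ℕ} {σ0 : ℝ≥0∞} (hσ : σ0 ≠ 0) (hk : ∃ k, 2 ≤ k ∧ μ k ≠ 0) :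
    ∃ γ0 π0 : ℝ, 0 < γ0 ∧ γ0 ≤ 1 ∧ 0 < π0 ∧ π0 ≤ 1 ∧ ∀ ν, Env μ σ0 ν → ∀ h,
      ENNReal.ofReal π0 ≤ EL (ν h) fun x => if γ0 ≤ x.1 then 1 else 0 := by
  obtain ⟨G, hG, hb⟩ := env_a hσ hk 2
  set t := min σ0 1 / 2 with ht
  have ht0 : t ≠ 0 := by simp [ht, hσ]
  have ht1 : t ≤ 1 := ENNReal.half_le_self.trans (min_le_right _ _)
  have htt : t ≠ ⊤ := ne_top_of_le_ne_top ENNReal.one_ne_top ht1
  obtain ⟨γ, h0, h1, h2⟩ := env_choose hG ht0
  refine ⟨γ, t.toReal, h0, h1, ENNReal.toReal_pos ht0 htt, ?_, fun ν hν h => ?_⟩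
  · simpa using ENNReal.toReal_mono ENNReal.one_ne_top ht1
  rw [ENNReal.ofReal_toReal htt]
  have h3 : t + t ≤ (EL (ν h) fun x => if γ ≤ x.1 then 1 else 0) + t := by
    calc t + t = min σ0 1 := ENNReal.add_halves _
      _ ≤ EL (ν h) fun x => if 0 < x.1 then 1 else 0 := (min_le_left _ _).trans (hν.low h)
      _ ≤ EL (ν h) fun x => (if γ ≤ x.1 then 1 else 0) +
          (if 0 < x.1 ∧ x.1 < γ then 1 else 0) := by
          refine EL_mono _ fun x => ?_
          by_cases a1 : 0 < x.1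
          · by_cases a2 : γ ≤ x.1
            · simp [a1, a2]
            · simp [a1, a2, not_le.1 a2]
          · simp [a1]
      _ ≤ _ := by
          rw [EL_add]
          exact add_le_add le_rfl ((env_small _ h0).trans
            ((mul_le_mul' le_rfl (hb ν hν h)).trans h2))
  exact (ENNReal.add_le_add_iff_right htt).1 h3

lemma env_sib_nonneg {x : ℕ → ℝ × ℝ} {k : ℕ} (hx : ∀ j < k, 0 ≤ (x j).1) (i : ℕ) :
    0 ≤ sib x k i :=
  Finset.sum_nonneg fun j hj => hx j (mem_range.1 (Finset.mem_of_mem_erase hj))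

lemma env_c0 {μ : PMF ℕ} {σ0 : ℝ≥0∞} (hσ : σ0 ≠ 0) (hk : ∃ k, 2 ≤ k ∧ μ k ≠ 0) :
    ∃ M : ℝ≥0∞, M ≠ ⊤ ∧ ∀ ν, Env μ σ0 ν → ∀ h, ∀ b : ℕ → ℝ≥0∞,
      EZ μ (ν h) (fun k x => ∑ i ∈ range k, b k * ENNReal.ofReal (1 / (1 + sib x k i))) ≤
        EL μ b * M := by
  obtain ⟨γ, π, hγ, -, hπ, -, hb⟩ := env_b hσ hk
  have hc0 : ENNReal.ofReal γ * ENNReal.ofReal π ≠ 0 := by simp [hγ, hπ]
  have hct : ENNReal.ofReal γ * ENNReal.ofReal π ≠ ⊤ :=
    ENNReal.mul_ne_top ENNReal.ofReal_ne_top ENNReal.ofReal_ne_top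
  refine ⟨2 * (ENNReal.ofReal γ * ENNReal.ofReal π)⁻¹,
    ENNReal.mul_ne_top (by simp) (ENNReal.inv_ne_top.2 hc0), fun ν hν h b => ?_⟩
  have h1 := EZ_child μ (ν h) (fun k i x => b k * ENNReal.ofReal (1 / (1 + sib x k i)))
    (fun k i x a => by rw [sib_update]) (fun x => ENNReal.ofReal x.1)
  have h2 : ENNReal.ofReal γ * ENNReal.ofReal π ≤ EL (ν h) fun x => ENNReal.ofReal x.1 := by
    refine (mul_le_mul' le_rfl (hb ν hν h)).trans ?_
    rw [← EL_const_mul]
    refine EL_mono _ fun x => ?_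
    split_ifs with a
    · rw [mul_one]; exact ENNReal.ofReal_le_ofReal a
    · simp
  have h3 : EZ μ (ν h) (fun k x => ∑ i ∈ range k,
      b k * ENNReal.ofReal (1 / (1 + sib x k i)) * ENNReal.ofReal (x i).1) ≤ EL μ b * 2 := by
    rw [← EL_mul_const, ← EZ_fst μ (ν h)]
    refine EZ_mono μ (ν h) fun k x hx => ?_
    have hx' : ∀ j < k, 0 ≤ (x j).1 := fun j hj => (hν.box h _ (hx j hj)).1
    have hC0 := Cs_nonneg (g := fun j => (x j).1) hx'
    simp only [mul_assoc]
    rw [← Finset.mul_sum]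
    refine mul_le_mul' le_rfl ?_
    calc _ ≤ ∑ i ∈ range k, ENNReal.ofReal (2 / (1 + Cs (fun j => (x j).1) k) * (x i).1) := by
          refine Finset.sum_le_sum fun i hi => ?_
          have hs := env_sib_nonneg hx' i
          rw [← ENNReal.ofReal_mul (by positivity)]
          refine ENNReal.ofReal_le_ofReal (mul_le_mul_of_nonneg_right ?_ (hx' i (mem_range.1 hi)))
          rw [div_le_div_iff₀ (by positivity) (by positivity), Cs_eq_sib x (mem_range.1 hi)]
          linarith [(hν.box h _ (hx i (mem_range.1 hi))).2]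
      _ = ENNReal.ofReal (2 / (1 + Cs (fun j => (x j).1) k) * Cs (fun j => (x j).1) k) := by
          rw [← ENNReal.ofReal_sum_of_nonneg fun i hi =>
            mul_nonneg (by positivity) (hx' i (mem_range.1 hi)), ← Finset.mul_sum]
          rfl
      _ ≤ 2 := by
          rw [← ENNReal.ofReal_ofNat 2]
          refine ENNReal.ofReal_le_ofReal ?_
          rw [div_mul_eq_mul_div, div_le_iff₀ (by positivity)]
          linarith
  rw [h1] at h3
  have h4 := (mul_le_mul' le_rfl h2).trans h3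
  rw [← mul_assoc, ← div_eq_mul_inv, ENNReal.le_div_iff_mul_le (Or.inl hc0) (Or.inl hct)]
  exact h4

lemma env_tail (μ : PMF ℕ) {ε : ℝ≥0∞} (hε : ε ≠ 0) :
    ∃ K : ℕ, EL μ (fun k => if K < k then 1 else 0) ≤ ε := by
  have h1 := ENNReal.tendsto_sum_nat_add (fun k => μ k) (by rw [μ.tsum_coe]; simp)
  obtain ⟨K, hK⟩ := (h1.eventually (ge_mem_nhds (pos_iff_ne_zero.2 hε))).exists
  refine ⟨K, le_trans ?_ hK⟩
  unfold EL
  rw [← ENNReal.summable.sum_add_tsum_nat_add' (k := K), Finset.sum_eq_zero, zero_add]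
  · refine ENNReal.tsum_le_tsum fun k => ?_
    dsimp only
    split_ifs <;> simp
  · intro k hk
    dsimp only
    rw [if_neg (by have := mem_range.1 hk; omega), mul_zero]

lemma env_c {μ : PMF ℕ} {σ0 : ℝ≥0∞} (hσ : σ0 ≠ 0) (hk : ∃ k, 2 ≤ k ∧ μ k ≠ 0)
    (ε : ℝ≥0∞) (hε : ε ≠ 0) : ∃ K : ℕ, ∀ ν, Env μ σ0 ν → ∀ h,
    EZ μ (ν h) (fun k x => ∑ i ∈ range k,
      if K < k then ENNReal.ofReal (1 / (1 + sib x k i)) else 0) ≤ ε := by
  obtain ⟨M, hM, h0⟩ := env_c0 hσ hk
  obtain ⟨n, hn, hlt⟩ := ENNReal.exists_nnreal_pos_mul_lt hM hε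
  obtain ⟨K, hK⟩ := env_tail μ (ε := n) (by simpa using hn.ne')
  refine ⟨K, fun ν hν h => ?_⟩
  have := h0 ν hν h (fun k => if K < k then 1 else 0)
  simp only [ite_mul, one_mul, zero_mul] at this
  exact this.trans ((mul_le_mul' hK le_rfl).trans hlt.le)

lemma env_P4 {x : ℕ → ℝ × ℝ} {k i K q : ℕ} {η : ℝ} (hx : ∀ j < k, 0 ≤ (x j).1) (hq : 1 ≤ q)
    (hη : 0 < η) :
    ENNReal.ofReal (1 / (1 + sib x k i)) ^ q ≤ envW (envN x ((range k).erase i)) +
      (if K < k then ENNReal.ofReal (1 / (1 + sib x k i)) else 0) +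
      (∑ j ∈ range k, (if k ≤ K then 1 else 0) *
        (if 0 < (x j).1 ∧ (x j).1 < η then 1 else 0)) +
      (if k ≤ K then ENNReal.ofReal (1 / (1 + η)) ^ q else 0) := by
  have hs := env_sib_nonneg hx i
  have hle : ENNReal.ofReal (1 / (1 + sib x k i)) ≤ 1 := by
    rw [ENNReal.ofReal_le_one, div_le_one (by positivity)]
    linarith
  rcases Nat.eq_zero_or_pos (envN x ((range k).erase i)) with h0 | h0
  · refine le_add_right (le_add_right (le_add_right ?_))
    rw [h0, envW, if_pos rfl]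
    exact pow_le_one' hle _
  by_cases hK : K < k
  · refine le_add_right (le_add_right (le_add_left ?_))
    rw [if_pos hK]
    simpa using pow_le_pow_right_of_le_one' hle hq
  have hK' : k ≤ K := not_lt.1 hK
  obtain ⟨j, hj⟩ := Finset.card_pos.1 h0
  rw [mem_filter] at hj
  by_cases hj2 : (x j).1 < η
  · refine le_add_right (le_add_left ?_)
    refine le_trans ?_ (Finset.single_le_sum (f := fun j => (if k ≤ K then (1 : ℝ≥0∞) else 0) *
      (if 0 < (x j).1 ∧ (x j).1 < η then 1 else 0)) (fun _ _ => bot_le)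
      (Finset.mem_of_mem_erase hj.1))
    simp only [if_pos hK', if_pos (And.intro hj.2 hj2), mul_one]
    exact pow_le_one' hle _
  · refine le_add_left ?_
    rw [if_pos hK']
    refine pow_le_pow_left' (ENNReal.ofReal_le_ofReal ?_) q
    refine one_div_le_one_div_of_le (by positivity) ?_
    have : (x j).1 ≤ sib x k i := Finset.single_le_sum (f := fun j => (x j).1)
      (fun j hj => hx j (mem_range.1 (Finset.mem_of_mem_erase hj))) hj.1
    linarith [not_lt.1 hj2]

lemma env_cut (K k : ℕ) (c : ℝ≥0∞) :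
    ∑ _i ∈ range k, (if k ≤ K then c else 0) ≤ K * c := by
  rw [Finset.sum_const, Finset.card_range, nsmul_eq_mul]
  split_ifs with h
  · exact mul_le_mul' (by exact_mod_cast h) le_rfl
  · simp

lemma env_d {μ : PMF ℕ} {σ0 : ℝ≥0∞} (hσ : σ0 ≠ 0) (hk : ∃ k, 2 ≤ k ∧ μ k ≠ 0) :
    ∃ (q : ℕ) (θ : ℝ≥0∞), 1 ≤ q ∧ θ < 1 ∧ ∀ ν, Env μ σ0 ν → ∀ h,
    EZ μ (ν h) (fun k x => ∑ i ∈ range k, ENNReal.ofReal (1 / (1 + sib x k i)) ^ q) ≤ θ := by
  obtain ⟨ρ, hρ, hW⟩ := env_W hσ hk
  obtain ⟨G, hG, hb⟩ := env_a hσ hk 2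
  obtain ⟨e, he, hlt⟩ := ENNReal.lt_iff_exists_add_pos_lt.1 hρ
  have hε : (e : ℝ≥0∞) / 3 ≠ 0 := by simp [he.ne']
  obtain ⟨K, hK⟩ := env_c hσ hk _ hε
  obtain ⟨η, hη, -, hη2⟩ := env_choose (M := (K : ℝ≥0∞) * (K * G))
    (ENNReal.mul_ne_top (by simp) (ENNReal.mul_ne_top (by simp) hG)) hε
  obtain ⟨n, hn, hn2⟩ := ENNReal.exists_nnreal_pos_mul_lt (a := (K : ℝ≥0∞)) (by simp) hε
  have ha : ENNReal.ofReal (1 / (1 + η)) < 1 := by
    rw [ENNReal.ofReal_lt_one, div_lt_one (by positivity)]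
    linarith
  obtain ⟨q, hq1, hq⟩ := (((ENNReal.tendsto_pow_atTop_nhds_zero_of_lt_one ha).eventually
    (ge_mem_nhds (show (0 : ℝ≥0∞) < n by simpa using hn))).and (eventually_ge_atTop 1)).exists
  refine ⟨q, ρ + e, hq, hlt, fun ν hν h => ?_⟩
  have h1 := EZ_child μ (ν h) (fun k _ _ => if k ≤ K then 1 else 0) (fun _ _ _ _ => rfl)
    (fun x => if 0 < x.1 ∧ x.1 < η then 1 else 0)
  have h2 : EZ μ (ν h) (fun k _ => ∑ _i ∈ range k, if k ≤ K then (1 : ℝ≥0∞) else 0) ≤ K := by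
    rw [EZ_fst]
    exact EL_le_const _ fun k _ => by simpa using env_cut K k 1
  calc _ ≤ EZ μ (ν h) (fun k x => (∑ i ∈ range k, envW (envN x ((range k).erase i))) +
        (∑ i ∈ range k, if K < k then ENNReal.ofReal (1 / (1 + sib x k i)) else 0) +
        K * (∑ j ∈ range k, (if k ≤ K then 1 else 0) *
          (if 0 < (x j).1 ∧ (x j).1 < η then 1 else 0)) +
        K * ENNReal.ofReal (1 / (1 + η)) ^ q) := by
        refine EZ_mono μ (ν h) fun k x hx => ?_
        have hx' : ∀ j < k, 0 ≤ (x j).1 := fun j hj => (hν.box h _ (hx j hj)).1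
        refine (Finset.sum_le_sum fun i _ => env_P4 (i := i) (K := K) hx' hq hη).trans ?_
        simp only [Finset.sum_add_distrib]
        refine add_le_add (add_le_add le_rfl ?_) (env_cut K k _)
        rw [Finset.sum_const, Finset.card_range, nsmul_eq_mul]
        by_cases hkK : k ≤ K
        · exact mul_le_mul' (by exact_mod_cast hkK) le_rfl
        · simp [hkK]
    _ ≤ ρ + e / 3 + e / 3 + e / 3 := by
        rw [EZ_add, EZ_add, EZ_add, EZ_const_mul, h1,
          EZ_fst μ (ν h) (fun _ => K * ENNReal.ofReal (1 / (1 + η)) ^ q), EL_const]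
        refine add_le_add (add_le_add (add_le_add (hW ν hν h) (hK ν hν h)) ?_) ?_
        · refine le_trans ?_ hη2
          calc _ ≤ K * (K * (ENNReal.ofReal η ^ 2 * G)) :=
                mul_le_mul' le_rfl (mul_le_mul' h2 ((env_small _ hη).trans
                  (mul_le_mul' le_rfl (hb ν hν h))))
            _ = _ := by ring
        · rw [mul_comm]
          exact (mul_le_mul' hq1 le_rfl).trans hn2.le
    _ = ρ + e := by rw [add_assoc, add_assoc, ← add_assoc (e / 3 : ℝ≥0∞), ENNReal.add_thirds]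

theorem Env_thm : EnvStmt := by
  intro μ σ0 hσ hk
  refine ⟨env_a hσ hk, env_b hσ hk, env_c hσ hk, ?_, env_d hσ hk⟩
  obtain ⟨M, hM, h0⟩ := env_c0 hσ hk
  refine ⟨M, hM, fun ν hν h => ?_⟩
  have := h0 ν hν h (fun _ => 1)
  simpa only [one_mul, EL_const] using this

end Pool.Agent.H109Z.FrogGW
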